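import Pool.Agent.Helper5.FJ.LocMain

/-!
# Surjectivity of the assembly map in degree one and formal factorizations

Let `R` be a ring. For a group `G` we consider the assertion `K1Onto R G`: every invertible matrix over
the group ring `R[G]` is, after adding an identity block, a product of *basic* matrices, which are

* the elementary matrices over `R[G]`,
* the invertible matrices with entries in `R`,
* the matrices `(1 - e) + e g` with an idempotent matrix `e` over `R` and `g` in `G`.

If `R` is regular, then `H_1(BG; K(R)) = K_1(R) ⊕ (K_0(R) ⊗ G^ab)` and the image of the assembly map `A_1` in
`K_1(RG)` is generated by the classes of the last two kinds of basic matrices, so the assertion says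
that `A_1` is surjective. (For `R = ℤ` and for fields `A_1` is injective for all groups, so that the
assertion is Q1 in degree one.)

Let `K` be any class of groups. We prove (without any assumption) that the following are equivalent:

(1) the assertion for all torsionfree groups `G` which are locally embeddable into `K`;

(2) for all matrices `A`, `B` over the group ring `R[F_L]` of a free group there are finitely many formal
factorizations, i.e. lists of basic matrices over `R[F_L]`, such that for all homomorphisms `φ` from
`F_L` to groups from `K`, which are torsionfree up to a certain bound, and for which `φ(A)` and `φ(B)` are
inverse to each other, one of the formal factorizations becomes a factorization of `φ(A)`, after adding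
an identity block.

For the class `K` of all groups, (1) is the assertion for all torsionfree groups. For the class of finite
groups, or for the class of the symmetric groups `S_k`, (1) is the assertion for all torsionfree groups
which are locally embeddable into finite groups, for example for all torsionfree residually finite
groups.

The proof of (1) ⟹ (2): if (2) is wrong there is a bad homomorphism for every finite set of formal
factorizations. The limit of these homomorphisms along an ultrafilter has as image a torsionfree group
which is locally embeddable into `K`; a factorization over this group can be lifted to the free
group, and the lift is a factorization for almost all of the bad homomorphisms.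
-/

set_option autoImplicit false

open Pool.Agent.Helper5.FJ

namespace Pool.Agent.Results.MP_c052b4_al.FormalFactorizations

universe u

/-- Let `R` be a ring and `K` a class of groups. Every invertible matrix over `R[G]` is stably a product of
basic matrices, for all torsionfree groups `G` which are locally embeddable into `K`, if and only if for
all matrices `A`, `B` over the group ring of a free group there are finitely many formal factorizations
one of which works for every homomorphism to a group from `K` which is torsionfree up to a bound and
makes `A` and `B` inverse to each other. -/
theorem result (R : Type u) [Ring R] (K : ∀ (H : Type) [Group H], Prop) :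
    (∀ (G : Type) [Group G], TF G → LocEmb K G → K1Onto R G) ↔
    ∀ (L n : ℕ) (A B : Matrix (Fin n) (Fin n) (MonoidAlgebra R (FreeGroup (Fin L)))),
      ∃ (W : Finset (FreeGroup (Fin L))) (N : ℕ) (Λ : Set (Fact R L n)), Λ.Finite ∧
        (∀ p ∈ Λ, ∀ X ∈ p.2, Basic R (FreeGroup (Fin L)) X) ∧
        ∀ (H : Type) [Group H], K H → ∀ φ : FreeGroup (Fin L) →* H,
          (∀ w ∈ W, ∀ k, 0 < k → k ≤ N → φ w ^ k = 1 → φ w = 1) →
          ind R φ (Fin n) A * ind R φ (Fin n) B = 1 → ind R φ (Fin n) B * ind R φ (Fin n) A = 1 →
          ∃ p ∈ Λ, stab (ind R φ (Fin n) A) p.1 =
            (p.2.map (ind R φ (Fin n ⊕ Fin p.1))).prod :=
  ⟨fun h L n A B => formal_of_all K h L n A B, fun h G _ hG hK => all_of_formal K h G hG hK⟩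

end Pool.Agent.Results.MP_c052b4_al.FormalFactorizations
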