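import Pool.Agent.Helper69K1.NilMono

set_option autoImplicit false

/-!
# `√2` is the threshold for nilpotent matrices over group rings as well

`NilGrp A` is the group of nilpotent matrices over `A`, known to be `NK₁(A)`; the conjecture of
Farrell and Jones predicts `NK₁(RG) = 0` for torsionfree `G` and regular `R`.

For every group `G` generated by `S`, every ring `R` generated by `T` and all `L₀`, `m`: the group
`NilGrp (RG)` is killed by `m` (for `m = 1`: vanishes) iff `m` kills the class of every nilpotent
matrix over `RG` whose entries are `0`, `±1`, elements of `S`, inverses of elements of `S` or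
elements of `T`, with at most two nonzero entries in each row and in each column, each nonzero entry
being alone in its row or alone in its column (so the norm of the support pattern is at most `√2`),
and whose support is `L`-cyclic for some `L ≥ L₀` (all directed cycles of the support have length
divisible by `L`). On the other side, if `R` has no zero divisors, the class of every nilpotent
matrix with monomial entries vanishes if it has at most one nonzero entry in each row (in particular
if the norm is smaller than `√2`), or at most one in each column.
-/

namespace Pool.Agent.Results.MP_c052b4_al.NilRootTwo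

open Pool.Agent.Helper69K1.NilG

theorem result (R : Type) [Ring R] (T : Set R) (hT : Subring.closure T = ⊤)
    (G : Type) [Group G] (S : Set G) (hS : Subgroup.closure S = ⊤) :
    (∀ L₀ m : ℕ, (∀ x : NilGrp (MonoidAlgebra R G), m • x = 0) ↔
      ∀ L : ℕ, L₀ ≤ L → ∀ (n : ℕ) (N : Matrix (Fin n) (Fin n) (MonoidAlgebra R G)),
        IsNilpotent N → Thin (gens T S) N → Cyclic L N → m • cl N = 0) ∧
    (IsDomain R → ∀ (n : ℕ) (N : Matrix (Fin n) (Fin n) (MonoidAlgebra R G)), IsNilpotent N →
      (∀ i j, ∃ (g : G) (r : R), N i j = MonoidAlgebra.single g r) →
      ((∀ i j j', N i j ≠ 0 → N i j' ≠ 0 → j = j') ∨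
        (∀ i i' j, N i j ≠ 0 → N i' j ≠ 0 → i = i')) → cl N = 0) := by
  have h0 : (0 : MonoidAlgebra R G) ∈ gens T S := Or.inl rfl
  have h1 : (1 : MonoidAlgebra R G) ∈ gens T S := Or.inr (Or.inl rfl)
  have hm : (-1 : MonoidAlgebra R G) ∈ gens T S := Or.inr (Or.inr (Or.inl rfl))
  refine ⟨fun L₀ m => nil_iff h0 h1 hm (closure_gens hT hS) L₀ m, ?_⟩
  intro hR n N hN hmono hr
  exact mono_zero hN hmono hr

end Pool.Agent.Results.MP_c052b4_al.NilRootTwo
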