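import Pool.Agent.Helper5.KX.Final

/-!
# Projective modules over group rings of torsionfree groups: one group (unconditional)

There is a torsionfree group `H` with two generators such that for every regular ring `R` the following
are equivalent:

* for all torsionfree groups `G` all finitely generated projective `R[G]`-modules are stably extended
  from `R`, that is, `A_0 : H_0(BG; K(R)) = K_0(R) → K_0(R[G])` is bijective;
* the same for the single group `H`.

The group `H` does not depend on `R`. By the theorem of Bass, Heller and Swan the first statement is
Question Q1 for `R` in all degrees `≤ 0`. Nothing is assumed; no K-theory is needed for the proof: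

* a torsionfree group is the filtered colimit of the largest torsionfree quotients `P_i` of finitely
  presented groups; they are retracts of their free product `B`, and `H` is an HNN extension of `B`
  with associated subgroups `A₁ ≅ A₂` which are free groups (`Pool/Agent/Helper5/FJ/`);
* for free groups all finitely generated projective modules are stably extended (`R` regular): the
  Cayley tree gives a resolution `0 → ⊕_s R[F] ⊗ W_s → R[F] ⊗ V → P → 0`, `V`, `W_s` finitely generated
  `R`-modules (`Pool/Agent/Helper19/KX/`, `Helper31`, `Helper61A`, `Helper64`);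
* let `R` be any ring, `H` an HNN extension of `B` such that for `A₁`, `A₂` all finitely generated
  projective modules are stably extended, and `P` a finitely generated projective `R[B]`-module whose
  extension to `R[H]` is stably extended, `R[H] ⊗ (P ⊕ (R[B] ⊗ Q)) ≅ R[H]^r`. Let `π_X` be the projection of `R[H]^r`
  attached to a subset `X = X B` of `H` by this isomorphism. For the side `X` of the edge `(B, tB)` of the
  Bass-Serre tree it maps the vectors with support in `{h : h⁻¹ ∈ W}`, `W` a sufficiently large finite
  convex set of cosets, to vectors with support in `{h : h⁻¹ ∈ W, h⁻¹ t ∈ W}`; its image is a finitely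
  generated projective `R[A₂]`-module. The vectors with support in `{h : h⁻¹ ∈ W}` form a free `R[B]`-module of
  finite rank which is the direct sum of `P ⊕ (R[B] ⊗ Q)` and of two modules induced from `A₂` and `A₁`. So
  `P` is stably extended (`Pool/Agent/Helper5/KX/Core.lean`).
-/

set_option autoImplicit false

open MonoidAlgebra Matrix

namespace Pool.Agent.Results.MP_c052b4_al.OneGroupProjectives

/-- Torsionfree groups. -/
def Torsionfree (G : Type) [Group G] : Prop := ∀ g : G, IsOfFinOrder g → g = 1

/-- The `R`-module `V` has a resolution of length `d` by finitely generated projective modules. -/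
def FinRes (R : Type) [Ring R] : ℕ → ∀ (V : Type) [AddCommGroup V] [Module R V], Prop
  | 0, V, _, _ => Module.Finite R V ∧ Module.Projective R V
  | d + 1, V, _, _ => ∃ (P : Type) (_ : AddCommGroup P) (_ : Module R P) (p : P →ₗ[R] V),
      (Module.Finite R P ∧ Module.Projective R P) ∧ Function.Surjective p ∧
        FinRes R d (LinearMap.ker p)

/-- Regular rings: left Noetherian, and all finitely generated left modules have finite resolutions by
finitely generated projective modules. -/
def Regular (R : Type) [Ring R] : Prop :=
  IsNoetherianRing R ∧ ∀ (V : Type) [AddCommGroup V] [Module R V] [Module.Finite R V],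
    ∃ d : ℕ, FinRes R d V

/-- For a square matrix `f` over `R` the `R[G]`-module of the row vectors `z` over `R[G]` with `z f = z`. If
`f` is idempotent it is `R[G] ⊗ Q` for the finitely generated projective `R`-module `Q` of the row vectors
`z` over `R` with `z f = z`. -/
noncomputable def extended (R : Type) [Ring R] (G : Type) [Group G] {m : ℕ}
    (f : Matrix (Fin m) (Fin m) R) :
    Submodule (MonoidAlgebra R G) (Fin m → MonoidAlgebra R G) where
  carrier := {z | z ᵥ* f.map (MonoidAlgebra.single 1) = z}
  zero_mem' := (Pool.Agent.Helper5.KX.EM R G f).zero_mem'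
  add_mem' := (Pool.Agent.Helper5.KX.EM R G f).add_mem'
  smul_mem' := (Pool.Agent.Helper5.KX.EM R G f).smul_mem'

/-- The `R[G]`-module `P` is stably extended from `R`: `P ⊕ (R[G] ⊗ Q)` is free of finite rank for some
finitely generated projective `R`-module `Q`. -/
def StablyExtended (R : Type) [Ring R] (G : Type) [Group G] (P : Type) [AddCommGroup P]
    [Module (MonoidAlgebra R G) P] : Prop :=
  ∃ (m : ℕ) (f : Matrix (Fin m) (Fin m) R), f * f = f ∧
    ∃ b : ℕ, Nonempty ((P × extended R G f) ≃ₗ[MonoidAlgebra R G] (Fin b → MonoidAlgebra R G))

/-- All finitely generated projective `R[G]`-modules are stably extended from `R`, that is,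
`K_0(R) → K_0(R[G])` is surjective. -/
def AllStablyExtended (R : Type) [Ring R] (G : Type) [Group G] : Prop :=
  ∀ (P : Type) [AddCommGroup P] [Module (MonoidAlgebra R G) P]
    [Module.Finite (MonoidAlgebra R G) P] [Module.Projective (MonoidAlgebra R G) P],
    StablyExtended R G P

theorem res_of_finRes (R : Type) [Ring R] (d : ℕ) : ∀ (V : Type) [AddCommGroup V] [Module R V],
    FinRes R d V → Pool.Agent.Helper5.KX.Res R (fun A _ _ => Pool.Agent.Helper5.KX.FGP R A) d V := by
  induction d with
  | zero => exact fun V _ _ h => h
  | succ d ih =>
    rintro V _ _ ⟨P, _, _, p, hP, hp, hd⟩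
    exact ⟨P, _, _, p, hP, hp, ih _ hd⟩

theorem regularRing (R : Type) [Ring R] (h : Regular R) : Pool.Agent.Helper5.KX.RegularRing R :=
  ⟨h.1, fun V _ _ _ => (h.2 V).imp fun d hd => res_of_finRes R d V hd⟩

/-- There is a torsionfree group `H` with two generators such that for every regular ring `R`:
`K_0(R) → K_0(R[G])` is surjective for all torsionfree groups `G` if and only if it is for `G = H`. -/
theorem result : ∃ (H : Type) (_ : Group H), Torsionfree H ∧
    (∃ x y : H, Subgroup.closure {x, y} = ⊤) ∧
    ∀ (R : Type) [Ring R], Regular R →
      ((∀ (G : Type) [Group G], Torsionfree G → AllStablyExtended R G) ↔ AllStablyExtended R H) :=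
  ⟨Pool.Agent.Helper5.FJ.HH, inferInstance, Pool.Agent.Helper5.FJ.tf_HH,
    ⟨_, _, Pool.Agent.Helper5.FJ.closure_HH⟩, fun R _ hR =>
    ⟨fun h => h Pool.Agent.Helper5.FJ.HH Pool.Agent.Helper5.FJ.tf_HH,
      fun h G _ hG => Pool.Agent.Helper5.KX.proj_of_HH R (regularRing R hR) h G hG⟩⟩

end Pool.Agent.Results.MP_c052b4_al.OneGroupProjectives
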