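import Pool.Agent.Helper5.FJ.Ulo

/-!
# `K_1` of group rings over algebraically closed fields: reduction to finite fields and approximating groups

For a field `k` and a group `G` let `K1Onto k G` be the assertion that every invertible matrix over the
group ring `k[G]` is, after adding an identity block, a product of *basic* matrices, which are

* the elementary matrices over `k[G]`,
* the invertible matrices with entries in `k`,
* the matrices `(1 - e) + e g` with an idempotent matrix `e` over `k` and `g` in `G`.

So the assertion says that `K_1(k[G])` is generated by `kˣ` and `G`, i.e. that the assembly map `A_1` is
surjective (it is always injective for fields).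

Let `K` be any class of groups. We prove (without any assumption) that the following are equivalent:

(1) the assertion for all algebraically closed fields `k` (of any characteristic) and all torsionfree
groups `G` which are locally embeddable into `K`;

(2) for every free group `F` of finite rank, every finite subset `S` of `F` and every `n` there are a number
`N` and a finite subset `T` of `F` such that for all primes `p`, all homomorphisms `φ` from `F` to groups from
`K`, such that no element of `φ(T)` has an order `2, …, N`, and all `n × n`-matrices `A`, `B` over `k[F]`,
`k` the algebraic closure of the field with `p` elements, with supports in `S`, for which `φ(A)` and `φ(B)`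
are inverse to each other: `φ(A)` is, after adding an identity block of size at most `N`, a product of at
most `N` images of basic matrices with supports in `T`.

For the class `K` of finite groups, (1) is the assertion for all torsionfree groups which are locally
embeddable into finite groups, for example all torsionfree residually finite groups, and (2) is a
statement on the finite rings of matrices over `F_q[H]`, `H` a finite group.

The proof of (1) ⟹ (2) uses ultraproducts of fields and limits of groups. For (2) ⟹ (1) one approximates
the subring of `k` generated by the coefficients by finite fields and the group by groups from `K`, gets
a factorization over an ultraproduct of fields, and specializes it to `k` by Hilbert's Nullstellensatz.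
-/

set_option autoImplicit false

open Pool.Agent.Helper5.FJ

namespace Pool.Agent.Results.MP_c052b4_al.UniformOverFiniteFields

/-- Let `K` be a class of groups. Every invertible matrix over `k[G]` is stably a product of basic
matrices, for all algebraically closed fields `k` and all torsionfree groups `G` which are locally
embeddable into `K`, if and only if factorizations with uniform bounds exist over the algebraic closures of
the prime fields `ZMod p` for all homomorphisms from a free group to groups from `K` which are
torsionfree up to a bound. -/
theorem result (K : ∀ (H : Type) [Group H], Prop) :
    (∀ (k : Type) [Field k] [IsAlgClosed k] (G : Type) [Group G], TF G → LocEmb K G →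
      K1Onto k G) ↔
    ∀ (L n : ℕ) (S : Finset (FreeGroup (Fin L))),
      ∃ (N : ℕ) (T : Finset (FreeGroup (Fin L))),
        ∀ (p : ℕ) [_root_.Fact p.Prime] (H : Type) [Group H], K H →
        ∀ (φ : FreeGroup (Fin L) →* H)
          (A B : Matrix (Fin n) (Fin n)
            (MonoidAlgebra (AlgebraicClosure (ZMod p)) (FreeGroup (Fin L)))),
          SuppIn S A → SuppIn S B → (∀ w ∈ T, ∀ j, 0 < j → j ≤ N → φ w ^ j = 1 → φ w = 1) →
          ind _ φ (Fin n) A * ind _ φ (Fin n) B = 1 →
          ind _ φ (Fin n) B * ind _ φ (Fin n) A = 1 →
          UnifFact (AlgebraicClosure (ZMod p)) N T φ A := by
  constructor
  · intro h L n S
    obtain ⟨N, T, hNT⟩ := uniform_of_all K h L n S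
    exact ⟨N, T, fun p _ H _ hH φ A B => hNT (AlgebraicClosure (ZMod p)) H hH φ A B⟩
  · intro h k _ _ G _ hG hK
    exact all_of_uniform K h k G hG hK

end Pool.Agent.Results.MP_c052b4_al.UniformOverFiniteFields
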